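import Pool.Agent.Q215.TD.Fin
import Pool.Agent.Q285.TD.BaiMea
import Pool.Agent.Q285.TD.Itf
import Pool.Agent.Q285.TD.TwsGood
import Pool.Agent.Q65.TD.Fsm
import Pool.Agent.Q182.TD.Fval
import Pool.Agent.Q166.TD.Pl
import Pool.Agent.Q198.TD.Conj
import Pool.Agent.Q153.TD.Uu
import Pool.Agent.Q222.TD.Per
import Pool.Agent.Q234.TD.Tr
import Pool.Agent.Q234.TD.Ch
import Pool.Agent.Q275.TD.Inv1
import Pool.Agent.Q275.TD.Inv2

/-!
# MP_9aeaaa_lc, Q2: topological conjugacy of diffeomorphisms in dimension at least two is not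
reducible to a Borel action of `S_∞`

Let `M` be a nonempty compact smooth manifold without boundary of dimension `d ≥ 2`.  Topological
conjugacy of `C^∞` diffeomorphisms of `M` is not Borel reducible to the orbit equivalence relation
of a Borel action of the group `S_∞` of all permutations of `ℕ` on a standard Borel space.
-/

set_option autoImplicit false

namespace Pool.Agent.Results.MP_9aeaaa_lc.NotCountableStructures

open Manifold
open scoped ContDiff

universe v

/-- The Borel structure of the Polish group `S_∞` of all permutations of `ℕ` (topology of pointwise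
convergence). -/
def permBorel : MeasurableSpace (Equiv.Perm ℕ) :=
  MeasurableSpace.generateFrom {U | ∃ i j : ℕ, U = {π : Equiv.Perm ℕ | π i = j}}

/-- The action of `S_∞` on the measurable space `Z` is Borel. -/
def BorelAction (Z : Type v) [MeasurableSpace Z] [MulAction (Equiv.Perm ℕ) Z] : Prop :=
  @Measurable (Equiv.Perm ℕ × Z) Z (permBorel.prod inferInstance) inferInstance
    (fun p => p.1 • p.2)

/-- The set `Diff^∞(M)` of the `C^∞` diffeomorphisms of a manifold `M` of dimension `d`. -/
abbrev DInf (d : ℕ) (M : Type) [TopologicalSpace M] [ChartedSpace (EuclideanSpace ℝ (Fin d)) M] :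
    Type := Diffeomorph (𝓡 d) (𝓡 d) M M ∞

/-- `M` is a `C^∞` manifold without boundary of dimension `d`. -/
def Smooth (d : ℕ) (M : Type) [TopologicalSpace M] [ChartedSpace (EuclideanSpace ℝ (Fin d)) M] :
    Prop := IsManifold (𝓡 d) ∞ M

/-- All evaluations `f ↦ f p` are continuous for the topology `τ` on `Diff^∞(M)`. -/
def EvCont {d : ℕ} {M : Type} [TopologicalSpace M] [ChartedSpace (EuclideanSpace ℝ (Fin d)) M]
    (τ : TopologicalSpace (DInf d M)) : Prop :=
  ∀ p : M, @Continuous _ M τ _ (fun f : DInf d M => f p)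

/-- Topological conjugacy of two diffeomorphisms of `M`: there is a homeomorphism `h` of `M` with
`h ∘ f = g ∘ h`. -/
def TopConj {d : ℕ} {M : Type} [TopologicalSpace M] [ChartedSpace (EuclideanSpace ℝ (Fin d)) M]
    (f g : DInf d M) : Prop :=
  ∃ h : M ≃ₜ M, ∀ p, h (f p) = g (h p)

/-- Topological conjugacy on `Diff^∞(M)` (with the Borel structure of the topology `τ`) is Borel
reducible to the orbit equivalence relation of the action of `S_∞` on `Z`. -/
def Reducible {d : ℕ} {M : Type} [TopologicalSpace M] [ChartedSpace (EuclideanSpace ℝ (Fin d)) M]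
    (τ : TopologicalSpace (DInf d M)) (Z : Type v) [MeasurableSpace Z]
    [MulAction (Equiv.Perm ℕ) Z] : Prop :=
  ∃ F : DInf d M → Z, @Measurable _ _ (@borel _ τ) _ F ∧
    ∀ f g : DInf d M, TopConj f g ↔ ∃ π : Equiv.Perm ℕ, π • F f = F g

/-- Let `M` be a nonempty compact Hausdorff smooth manifold without boundary of dimension `d ≥ 2`,
and let `τ` be a Polish topology on `Diff^∞(M)` for which all evaluations `f ↦ f p` are continuous
(for instance the `C^∞` topology).  Topological conjugacy on `Diff^∞(M)` is not Borel reducible to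
the orbit equivalence relation of a Borel action of `S_∞` on a standard Borel space `Z`. -/
theorem result (d : ℕ) (hd : 2 ≤ d) (M : Type) [TopologicalSpace M] [T2Space M] [CompactSpace M]
    [Nonempty M] [ChartedSpace (EuclideanSpace ℝ (Fin d)) M] (hM : Smooth d M)
    (τ : TopologicalSpace (DInf d M)) (hτ : @PolishSpace _ τ) (hev : EvCont τ)
    (Z : Type v) [MeasurableSpace Z] [StandardBorelSpace Z] [MulAction (Equiv.Perm ℕ) Z]
    (hZ : BorelAction Z) : ¬ Reducible τ Z := by
  obtain ⟨n, rfl⟩ : ∃ n, d = n + 2 := ⟨d - 2, by omega⟩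
  have : IsManifold (𝓡 (n + 2)) ∞ M := hM
  exact Pool.Agent.Q215.TD.main Pool.Agent.Q285.TD.t_ITF Pool.Agent.Q285.TD.t_TWS
    Pool.Agent.Q285.TD.t_GOOD Pool.Agent.Q65.TD.t_FSM Pool.Agent.Q65.TD.t_FCX
    Pool.Agent.Q182.TD.t_FVAL Pool.Agent.Q166.TD.t_PL Pool.Agent.Q198.TD.t_CONJ
    Pool.Agent.Q153.TD.t_UU Pool.Agent.Q222.TD.t_PER Pool.Agent.Q234.TD.t_TRC
    Pool.Agent.Q234.TD.t_TRS Pool.Agent.Q234.TD.t_CH Pool.Agent.Q275.TD.t_INV1
    Pool.Agent.Q275.TD.t_INV2 Pool.Agent.Q285.TD.t_BAI Pool.Agent.Q285.TD.t_MEA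
    n M τ hτ hev Z hZ

end Pool.Agent.Results.MP_9aeaaa_lc.NotCountableStructures
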